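import Pool.Agent.P.MP_867493_lc.D.Main

set_option autoImplicit false

namespace Pool.Agent.Results.MP_867493_lc.Deterministic

open Pool.Agent.P.MP_867493_lc

theorem result (G H : Type) [Group G] [Group H] (xs : List G) (ys : List H)
    (hxs : Subgroup.closure {x | x ∈ xs} = ⊤) (hys : Subgroup.closure {y | y ∈ ys} = ⊤)
    (cG : Cls xs) (cH : Cls ys) (pG : InP (SSP xs)) (pH : InP (SSP ys)) :
    InP (SSP (xs.map Monoid.Coprod.inl ++ ys.map Monoid.Coprod.inr :
      List (Monoid.Coprod G H))) :=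
  inP_of_dsolv xs ys (cG.dsolv xs hxs pG) (cH.dsolv ys hys pH)

end Pool.Agent.Results.MP_867493_lc.Deterministic
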