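import Pool.Agent.P.MP_867493_lc.Final

set_option autoImplicit false

namespace Pool.Agent.Results.MP_867493_lc.ZeroError

open Pool.Agent.P.MP_867493_lc

theorem result (G H : Type) [Group G] [Group H] (xs : List G) (ys : List H)
    (hxs : Subgroup.closure {x | x ∈ xs} = ⊤) (hys : Subgroup.closure {y | y ∈ ys} = ⊤)
    (tG : Tame xs) (tH : Tame ys) (pG : InP (SSP xs)) (pH : InP (SSP ys)) :
    InZPP (SSP (xs.map Monoid.Coprod.inl ++ ys.map Monoid.Coprod.inr :
      List (Monoid.Coprod G H))) := by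
  obtain ⟨f, hf, hf'⟩ := pG
  obtain ⟨g, hg, hg'⟩ := pH
  exact inZPP_of_solvable xs ys (tG.solvable xs hxs f hf' (pt_of_isPolyTime hf))
    (tH.solvable ys hys g hg' (pt_of_isPolyTime hg))

end Pool.Agent.Results.MP_867493_lc.ZeroError
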